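import Pool.Agent.K3h37.IGP.Ort1

/-! Brick O of helper17's project: an orthogonal basis for the trace form and integrality. -/

set_option autoImplicit false
set_option linter.unusedSectionVars false
set_option linter.style.haveILetI false

namespace Pool.Agent.K3h37.Ort

open Polynomial Pool.Agent.K3h17

section
variable {K Ω : Type} [Field K] [CharZero K] [Field Ω] [Algebra (RatFunc K) Ω] [Algebra K Ω]
  [IsScalarTower K (RatFunc K) Ω] [FiniteDimensional (RatFunc K) Ω] [IsGalois (RatFunc K) Ω]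

lemma aeval_X (p : K[X]) : aeval (RatFunc.X : RatFunc K) p = algebraMap K[X] (RatFunc K) p := by
  have h : (aeval (RatFunc.X : RatFunc K)) = IsScalarTower.toAlgHom K K[X] (RatFunc K) := by
    apply Polynomial.algHom_ext
    simp
  rw [h]; rfl

lemma aeval_xx (p : K[X]) : aeval (xx K Ω) p
    = algebraMap (RatFunc K) Ω (algebraMap K[X] (RatFunc K) p) := by
  unfold xx
  rw [Polynomial.aeval_algebraMap_apply, aeval_X]

instance : CharZero (RatFunc K) := charZero_of_injective_algebraMap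
  (algebraMap K (RatFunc K)).injective

variable (P : Subgroup (Ω ≃ₐ[RatFunc K] Ω))

lemma T_mul (c : RatFunc K) (z : Ω) : T P (algebraMap (RatFunc K) Ω c * z) = c * T P z := by
  rw [← Algebra.smul_def, map_smul, smul_eq_mul]

lemma exists_basis' : ∃ (e : Fin P.index → Ω) (D : Fin P.index → K[X]),
    (∀ r, ∀ γ ∈ P, γ (e r) = e r) ∧ (∀ r s, r ≠ s → T P (e r * e s) = 0) ∧
    (∀ r, D r ≠ 0) ∧ (∀ r, T P (e r * e r) = algebraMap K[X] (RatFunc K) (D r)) ∧
    ∀ z : Ω, (∀ γ ∈ P, γ z = z) →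
      z = ∑ r, algebraMap (RatFunc K) Ω (T P (z * e r) / algebraMap K[X] (RatFunc K) (D r)) * e r := by
  obtain ⟨v, h1, h2, h3, h4⟩ := exists_basis P
  set t : Fin P.index → RatFunc K := fun r => T P (v r * v r) with ht
  set δ : Fin P.index → RatFunc K := fun r => algebraMap K[X] (RatFunc K) (t r).denom with hδ
  have hδ0 : ∀ r, δ r ≠ 0 := fun r => by
    rw [hδ]; simp only
    rw [Ne, FaithfulSMul.algebraMap_eq_zero_iff]
    exact (t r).denom_ne_zero
  have hnd : ∀ r, t r = algebraMap K[X] (RatFunc K) (t r).num / δ r := fun r =>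
    ((t r).num_div_denom).symm
  have key : ∀ r, δ r * (δ r * t r) = algebraMap K[X] (RatFunc K) ((t r).num * (t r).denom) := by
    intro r
    have : δ r * t r = algebraMap K[X] (RatFunc K) (t r).num := by
      conv_lhs => rw [hnd r]
      rw [mul_div_cancel₀ _ (hδ0 r)]
    rw [this, map_mul, mul_comm]
  refine ⟨fun r => algebraMap (RatFunc K) Ω (δ r) * v r, fun r => (t r).num * (t r).denom,
    ?_, ?_, ?_, ?_, ?_⟩
  · intro r γ hγ
    rw [map_mul, h1 r γ hγ, AlgEquiv.commutes]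
  · intro r s hrs
    have e : algebraMap (RatFunc K) Ω (δ r) * v r * (algebraMap (RatFunc K) Ω (δ s) * v s)
        = algebraMap (RatFunc K) Ω (δ r * δ s) * (v r * v s) := by rw [map_mul]; ring
    rw [e, T_mul, h2 r s hrs, mul_zero]
  · intro r
    apply mul_ne_zero _ (t r).denom_ne_zero
    rw [Ne, RatFunc.num_eq_zero_iff]
    exact h3 r
  · intro r
    have e : algebraMap (RatFunc K) Ω (δ r) * v r * (algebraMap (RatFunc K) Ω (δ r) * v r)
        = algebraMap (RatFunc K) Ω (δ r) * (algebraMap (RatFunc K) Ω (δ r) * (v r * v r)) := by ring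
    simp only
    rw [e, T_mul, T_mul]
    exact key r
  · intro z hz
    conv_lhs => rw [h4 z hz]
    refine Finset.sum_congr rfl fun r _ => ?_
    have e : z * (algebraMap (RatFunc K) Ω (δ r) * v r)
        = algebraMap (RatFunc K) Ω (δ r) * (z * v r) := by ring
    rw [e, T_mul, ← key r, ← mul_assoc, ← map_mul]
    congr 2
    have h5 := h3 r
    have h6 := hδ0 r
    change T P (z * v r) / t r = _
    have h7 : t r ≠ 0 := h5
    field_simp

/-- the matrix of the conjugates of the basis -/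
noncomputable def Em (P : Subgroup (Ω ≃ₐ[RatFunc K] Ω)) (e : Fin P.index → Ω)
    (ε : Fin P.index ≃ (Ω ≃ₐ[RatFunc K] Ω) ⧸ P) : Matrix (Fin P.index) (Fin P.index) Ω :=
  Matrix.of fun i r => (ε i).out (e r)

lemma Em_apply (e : Fin P.index → Ω) (ε : Fin P.index ≃ (Ω ≃ₐ[RatFunc K] Ω) ⧸ P)
    (i r : Fin P.index) : Em P e ε i r = (ε i).out (e r) := rfl

lemma out_eq (γ : Ω ≃ₐ[RatFunc K] Ω) (q : (Ω ≃ₐ[RatFunc K] Ω) ⧸ P) (y : Ω)
    (hy : ∀ γ ∈ P, γ y = y) : γ (q.out y) = (γ • q).out y := by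
  have h1 : (QuotientGroup.mk (γ • q).out : (Ω ≃ₐ[RatFunc K] Ω) ⧸ P)
      = QuotientGroup.mk (γ * q.out) := by
    rw [QuotientGroup.out_eq']
    conv_lhs => rw [← QuotientGroup.out_eq' q]
    rfl
  have h2 := QuotientGroup.eq.1 h1
  have h3 := hy _ h2
  rw [AlgEquiv.mul_apply, AlgEquiv.mul_apply] at h3
  have h4 := congrArg (γ • q).out h3
  rw [← AlgEquiv.mul_apply, mul_inv_cancel, AlgEquiv.one_apply] at h4
  exact h4

lemma Em_sq (e : Fin P.index → Ω) (D : Fin P.index → K[X])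
    (h1 : ∀ r, ∀ γ ∈ P, γ (e r) = e r) (h2 : ∀ r s, r ≠ s → T P (e r * e s) = 0)
    (h3 : ∀ r, T P (e r * e r) = algebraMap K[X] (RatFunc K) (D r))
    (ε : Fin P.index ≃ (Ω ≃ₐ[RatFunc K] Ω) ⧸ P) :
    (Em P e ε).transpose * Em P e ε = Matrix.diagonal fun r => aeval (xx K Ω) (D r) := by
  classical
  haveI : Fintype ((Ω ≃ₐ[RatFunc K] Ω) ⧸ P) := Fintype.ofFinite _
  ext r s
  rw [Matrix.mul_apply, Matrix.diagonal_apply]
  have e1 : ∑ j, (Em P e ε).transpose r j * Em P e ε j s
      = algebraMap (RatFunc K) Ω (T P (e r * e s)) := by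
    rw [T_out P (fun γ hγ => by rw [map_mul, h1 r γ hγ, h1 s γ hγ]), ← ε.sum_comp]
    refine Finset.sum_congr rfl fun j _ => ?_
    rw [Matrix.transpose_apply, Em_apply, Em_apply, map_mul]
  rw [e1]
  split_ifs with hrs
  · subst hrs; rw [h3, aeval_xx]
  · rw [h2 r s hrs, map_zero]

lemma aeval_ne {D : K[X]} (h : D ≠ 0) : aeval (xx K Ω) D ≠ 0 := by
  rw [aeval_xx, Ne, FaithfulSMul.algebraMap_eq_zero_iff, FaithfulSMul.algebraMap_eq_zero_iff]
  exact h

lemma sum_sq (e : Fin P.index → Ω) (D : Fin P.index → K[X])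
    (h1 : ∀ r, ∀ γ ∈ P, γ (e r) = e r) (h2 : ∀ r s, r ≠ s → T P (e r * e s) = 0)
    (h3 : ∀ r, T P (e r * e r) = algebraMap K[X] (RatFunc K) (D r)) (h4 : ∀ r, D r ≠ 0)
    (ε : Fin P.index ≃ (Ω ≃ₐ[RatFunc K] Ω) ⧸ P) :
    ∑ r, e r ^ 2 / aeval (xx K Ω) (D r) = 1 := by
  classical
  have h5 := Em_sq P e D h1 h2 h3 ε
  have h6 : (Matrix.diagonal (fun r => (aeval (xx K Ω) (D r))⁻¹) * (Em P e ε).transpose)
      * Em P e ε = 1 := by
    rw [Matrix.mul_assoc, h5, Matrix.diagonal_mul_diagonal, ← Matrix.diagonal_one]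
    congr 1
    ext r
    exact inv_mul_cancel₀ (aeval_ne (h4 r))
  have h7 := mul_eq_one_comm.1 h6
  set i₀ := ε.symm (QuotientGroup.mk 1) with hi
  have h8 := congrFun (congrFun h7 i₀) i₀
  rw [Matrix.mul_apply, Matrix.one_apply_eq] at h8
  rw [← h8]
  refine Finset.sum_congr rfl fun r _ => ?_
  have h9 : Em P e ε i₀ r = e r := by
    rw [Em_apply, hi, Equiv.apply_symm_apply]
    apply h1
    have : (QuotientGroup.mk 1 : (Ω ≃ₐ[RatFunc K] Ω) ⧸ P)
        = QuotientGroup.mk (QuotientGroup.mk 1 : (Ω ≃ₐ[RatFunc K] Ω) ⧸ P).out := by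
      rw [QuotientGroup.out_eq']
    have h := QuotientGroup.eq.1 this
    rwa [inv_one, one_mul] at h
  rw [Matrix.diagonal_mul, Matrix.transpose_apply, h9]
  rw [div_eq_mul_inv]; ring

lemma det_sq (e : Fin P.index → Ω) (D : Fin P.index → K[X])
    (h1 : ∀ r, ∀ γ ∈ P, γ (e r) = e r) (h2 : ∀ r s, r ≠ s → T P (e r * e s) = 0)
    (h3 : ∀ r, T P (e r * e r) = algebraMap K[X] (RatFunc K) (D r))
    (ε : Fin P.index ≃ (Ω ≃ₐ[RatFunc K] Ω) ⧸ P)
    (hev : ∀ γ : Ω ≃ₐ[RatFunc K] Ω, ∀ (f : Equiv.Perm ((Ω ≃ₐ[RatFunc K] Ω) ⧸ P)),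
      (∀ q, f q = γ • q) → ∀ (_ : Fintype ((Ω ≃ₐ[RatFunc K] Ω) ⧸ P))
        (_ : DecidableEq ((Ω ≃ₐ[RatFunc K] Ω) ⧸ P)), Equiv.Perm.sign f = 1) :
    ∃ g : K[X], g ^ 2 = ∏ r, D r := by
  classical
  haveI : Fintype ((Ω ≃ₐ[RatFunc K] Ω) ⧸ P) := Fintype.ofFinite _
  have h5 := congrArg Matrix.det (Em_sq P e D h1 h2 h3 ε)
  rw [Matrix.det_mul, Matrix.det_transpose, Matrix.det_diagonal] at h5
  have h6 : ∀ γ : Ω ≃ₐ[RatFunc K] Ω, γ (Em P e ε).det = (Em P e ε).det := by
    intro γ
    set f : Equiv.Perm ((Ω ≃ₐ[RatFunc K] Ω) ⧸ P) := MulAction.toPerm γ with hf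
    have hs := hev γ f (fun q => rfl) inferInstance inferInstance
    set π : Equiv.Perm (Fin P.index) := (ε.trans f).trans ε.symm with hπ
    have hsπ : Equiv.Perm.sign π = 1 := by
      rw [hπ, Equiv.Perm.sign_trans_trans_symm, hs]
    have h7 : (Em P e ε).map γ = (Em P e ε).submatrix π id := by
      ext i r
      rw [Matrix.map_apply, Matrix.submatrix_apply, Em_apply, Em_apply, out_eq P γ _ _ (h1 r)]
      simp [hπ, hf]
    have h8 : γ (Em P e ε).det = ((Em P e ε).map γ).det := by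
      have := (γ : Ω →+* Ω).map_det (Em P e ε)
      exact this
    rw [h8, h7, Matrix.det_permute, hsπ]
    simp
  obtain ⟨g', hg'⟩ := (IsGalois.mem_range_algebraMap_iff_fixed (F := RatFunc K) (E := Ω) _).2 h6
  have h9 : g' ^ 2 = algebraMap K[X] (RatFunc K) (∏ r, D r) := by
    apply (algebraMap (RatFunc K) Ω).injective
    rw [map_pow, hg', pow_two, h5, map_prod, map_prod]
    refine Finset.prod_congr rfl fun r _ => aeval_xx _
  obtain ⟨g, hg⟩ := IsIntegrallyClosed.exists_algebraMap_eq_of_isIntegral_pow (R := K[X])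
    (x := g') (n := 2) (by norm_num) (by rw [h9]; exact isIntegral_algebraMap)
  refine ⟨g, ?_⟩
  apply FaithfulSMul.algebraMap_injective K[X] (RatFunc K)
  rw [map_pow, hg, h9]

end

/-- Brick O. -/
theorem t_ort : St_ort := by
  intro K Ω _ _ _ _ _ _ _ _ P hev
  classical
  obtain ⟨e, D, h1, h2, h4, h3, h5⟩ := exists_basis' P
  have hcard : Nat.card ((Ω ≃ₐ[RatFunc K] Ω) ⧸ P) = P.index := rfl
  set ε : Fin P.index ≃ (Ω ≃ₐ[RatFunc K] Ω) ⧸ P :=
    (Finite.equivFinOfCardEq hcard).symm with hε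
  obtain ⟨g, hg⟩ := det_sq P e D h1 h2 h3 ε hev
  set c : Fin P.index × Fin P.index × Fin P.index → RatFunc K := fun i =>
    T P (e i.1 * e i.2.1 * e i.2.2) /
      (algebraMap K[X] (RatFunc K) (D i.2.1) * algebraMap K[X] (RatFunc K) (D i.2.2)) with hc
  obtain ⟨b, hb⟩ := IsLocalization.exist_integer_multiples_of_finite (nonZeroDivisors K[X]) c
  choose N hN using hb
  set Δ : K[X] := (b : K[X]) with hΔ
  have hN' : ∀ r s t, algebraMap K[X] (RatFunc K) (N (r, s, t))
      = algebraMap K[X] (RatFunc K) Δ * c (r, s, t) := by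
    intro r s t
    rw [hN, Algebra.smul_def]
  have hNs : ∀ r s t, N (r, s, t) = N (r, t, s) := by
    intro r s t
    apply FaithfulSMul.algebraMap_injective K[X] (RatFunc K)
    rw [hN', hN']
    congr 1
    simp only [hc]
    rw [mul_right_comm (e r) (e s) (e t), mul_comm (algebraMap K[X] (RatFunc K) (D s))]
  refine ⟨e, D, g, Δ, ∑ r, ∑ s, ∑ t, ((D s).natDegree + (D t).natDegree
    + (N (r, s, t)).natDegree), h1, ?_, h4, hg, nonZeroDivisors.ne_zero b.2,
    sum_sq P e D h1 h2 h3 h4 ε, ?_⟩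
  · intro z hz
    exact ⟨_, h5 z hz⟩
  · rintro B z ⟨w, hw, hz⟩
    refine ⟨fun s t => ∑ r, w r * N (r, s, t), ?_, ?_, ?_⟩
    · intro s t
      refine Finset.sum_congr rfl fun r _ => ?_
      rw [hNs]
    · intro s t
      simp only
      rw [Finset.mul_sum]
      refine Polynomial.natDegree_sum_le_of_forall_le _ _ fun r _ => ?_
      have t1 : (D s * D t * (w r * N (r, s, t))).natDegree
          ≤ (D s).natDegree + (D t).natDegree + ((w r).natDegree + (N (r, s, t)).natDegree) := by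
        refine natDegree_mul_le.trans (add_le_add natDegree_mul_le natDegree_mul_le)
      have t2 : (D s).natDegree + (D t).natDegree + (N (r, s, t)).natDegree
          ≤ ∑ r, ∑ s, ∑ t, ((D s).natDegree + (D t).natDegree + (N (r, s, t)).natDegree) := by
        refine le_trans ?_ (Finset.single_le_sum (f := fun r => ∑ s, ∑ t, ((D s).natDegree
          + (D t).natDegree + (N (r, s, t)).natDegree)) (fun _ _ => Nat.zero_le _)
          (Finset.mem_univ r))
        refine le_trans ?_ (Finset.single_le_sum (f := fun s => ∑ t, ((D s).natDegree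
          + (D t).natDegree + (N (r, s, t)).natDegree)) (fun _ _ => Nat.zero_le _)
          (Finset.mem_univ s))
        exact Finset.single_le_sum (f := fun t => ((D s).natDegree
          + (D t).natDegree + (N (r, s, t)).natDegree)) (fun _ _ => Nat.zero_le _)
          (Finset.mem_univ t)
      have t3 := hw r
      omega
    · intro s
      have hzf : ∀ γ ∈ P, γ z = z := by
        intro γ hγ
        rw [hz, map_sum]
        refine Finset.sum_congr rfl fun r _ => ?_
        rw [map_mul, h1 r γ hγ, aeval_xx, AlgEquiv.commutes]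
      have h6 := h5 (z * e s) (fun γ hγ => by rw [map_mul, hzf γ hγ, h1 s γ hγ])
      rw [h6, Finset.mul_sum]
      refine Finset.sum_congr rfl fun t _ => ?_
      rw [← mul_assoc]
      congr 1
      have h7 : T P (z * e s * e t) = ∑ r, algebraMap K[X] (RatFunc K) (Δ * w r)
          * T P (e r * e s * e t) := by
        rw [hz, Finset.sum_mul, Finset.sum_mul, map_sum]
        refine Finset.sum_congr rfl fun r _ => ?_
        rw [aeval_xx, mul_assoc, mul_assoc, T_mul, mul_assoc (e r)]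
      have hD : ∀ r, algebraMap K[X] (RatFunc K) (D r) ≠ 0 := fun r => by
        rw [Ne, FaithfulSMul.algebraMap_eq_zero_iff]; exact h4 r
      have h8 : T P (z * e s * e t) / algebraMap K[X] (RatFunc K) (D t)
          = algebraMap K[X] (RatFunc K) (D s * ∑ r, w r * N (r, s, t)) := by
        rw [h7, Finset.sum_div, map_mul, map_sum, Finset.mul_sum]
        refine Finset.sum_congr rfl fun r _ => ?_
        rw [map_mul (algebraMap K[X] (RatFunc K)) Δ, map_mul (algebraMap K[X] (RatFunc K)) (w r), hN']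
        simp only [hc]
        have d1 := hD s
        have d2 := hD t
        field_simp
      rw [h8, aeval_xx, aeval_xx, ← map_mul, ← map_mul]

end Pool.Agent.K3h37.Ort
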