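import Mathlib
import Pool.Agent.K3h17.Stm

/-! Orthogonal basis of the fixed field of a subgroup for the (normalised) trace form. -/

set_option autoImplicit false
set_option linter.unusedSectionVars false
set_option linter.style.haveILetI false

namespace Pool.Agent.K3h37.Ort

open Polynomial

section gen
variable {F Ω : Type} [Field F] [CharZero F] [Field Ω] [Algebra F Ω] [FiniteDimensional F Ω]
  [IsGalois F Ω] (P : Subgroup (Ω ≃ₐ[F] Ω))

/-- the normalised trace -/
noncomputable def T : Ω →ₗ[F] F := (Nat.card P : F)⁻¹ • Algebra.trace F Ω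

lemma T_apply (z : Ω) : T P z = (Nat.card P : F)⁻¹ * Algebra.trace F Ω z := rfl

lemma card_ne : (Nat.card P : F) ≠ 0 := by
  have : 0 < Nat.card P := Nat.card_pos
  exact_mod_cast this.ne'

lemma fdim : Module.finrank F (IntermediateField.fixedField P) = P.index := by
  have h1 := Module.finrank_mul_finrank F (IntermediateField.fixedField P) Ω
  rw [IntermediateField.finrank_fixedField_eq_card, ← IsGalois.card_aut_eq_finrank F Ω,
    ← P.card_mul_index, mul_comm] at h1
  exact Nat.eq_of_mul_eq_mul_left Nat.card_pos h1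

lemma T_one : T P 1 ≠ 0 := by
  rw [T_apply]
  have h : Algebra.trace F Ω 1 = (Module.finrank F Ω : F) := by
    have := Algebra.trace_algebraMap (S := Ω) (1 : F)
    rw [map_one] at this
    rw [this]; simp
  rw [h]
  have h2 : (Module.finrank F Ω : F) ≠ 0 := by
    have : 0 < Module.finrank F Ω := Module.finrank_pos
    exact_mod_cast this.ne'
  exact mul_ne_zero (inv_ne_zero (card_ne P)) h2

/-- bijection `X/P × P ≃ X`. -/
lemma bij : Function.Bijective (fun a : ((Ω ≃ₐ[F] Ω) ⧸ P) × P => a.1.out * (a.2 : Ω ≃ₐ[F] Ω)) := by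
  constructor
  · rintro ⟨q, p⟩ ⟨q', p'⟩ h
    simp only at h
    have h1 : q = q' := by
      have e : (QuotientGroup.mk (q.out * (p : Ω ≃ₐ[F] Ω)) : (Ω ≃ₐ[F] Ω) ⧸ P)
          = QuotientGroup.mk (q'.out * (p' : Ω ≃ₐ[F] Ω)) := by rw [h]
      rw [QuotientGroup.mk_mul_of_mem _ p.2, QuotientGroup.mk_mul_of_mem _ p'.2,
        QuotientGroup.out_eq', QuotientGroup.out_eq'] at e
      exact e
    subst h1
    have h2 := mul_left_cancel h
    rw [Prod.mk.injEq]
    exact ⟨rfl, Subtype.ext h2⟩
  · intro σ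
    refine ⟨⟨QuotientGroup.mk σ, ⟨(QuotientGroup.mk σ : (Ω ≃ₐ[F] Ω) ⧸ P).out⁻¹ * σ, ?_⟩⟩, ?_⟩
    · rw [← QuotientGroup.eq, QuotientGroup.out_eq']
    · simp

lemma T_out {z : Ω} (hz : ∀ γ ∈ P, γ z = z) [Fintype ((Ω ≃ₐ[F] Ω) ⧸ P)] :
    algebraMap F Ω (T P z) = ∑ q : (Ω ≃ₐ[F] Ω) ⧸ P, q.out z := by
  classical
  haveI : Fintype P := Fintype.ofFinite P
  haveI : CharZero Ω := charZero_of_injective_algebraMap (algebraMap F Ω).injective
  rw [T_apply, map_mul, trace_eq_sum_automorphisms]
  have h1 : ∑ σ : Ω ≃ₐ[F] Ω, σ z = ∑ a : ((Ω ≃ₐ[F] Ω) ⧸ P) × P, a.1.out z := by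
    refine (Function.Bijective.sum_comp (bij P) (fun σ => σ z)).symm.trans ?_
    refine Finset.sum_congr rfl fun a _ => ?_
    rw [AlgEquiv.mul_apply, hz _ a.2.2]
  rw [h1, Fintype.sum_prod_type]
  simp only [Finset.sum_const, Finset.card_univ, nsmul_eq_mul, ← Finset.mul_sum]
  rw [← mul_assoc, map_inv₀, map_natCast, Nat.card_eq_fintype_card, inv_mul_cancel₀, one_mul]
  have : 0 < Fintype.card P := Fintype.card_pos
  exact_mod_cast this.ne'

/-- the trace form on the fixed field -/
noncomputable def B : LinearMap.BilinForm F (IntermediateField.fixedField P) :=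
  LinearMap.mk₂ F (fun a b => T P ((a : Ω) * (b : Ω)))
    (fun a b c => by push_cast; rw [add_mul, map_add])
    (fun a b c => by
      have e : ((a • b : IntermediateField.fixedField P) : Ω) = a • (b : Ω) := rfl
      rw [e, smul_mul_assoc, map_smul])
    (fun a b c => by push_cast; rw [mul_add, map_add])
    (fun a b c => by
      have e : ((a • c : IntermediateField.fixedField P) : Ω) = a • (c : Ω) := rfl
      rw [e, mul_smul_comm, map_smul])

lemma B_apply (a b : IntermediateField.fixedField P) : B P a b = T P ((a : Ω) * (b : Ω)) := rfl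

lemma B_symm : LinearMap.IsSymm (B P) := ⟨fun a b => by
  simp only [RingHom.id_apply, B_apply]; rw [mul_comm]⟩

lemma B_nondeg (a : IntermediateField.fixedField P) (h : ∀ b, B P a b = 0) : a = 0 := by
  by_contra ha
  have h1 := h a⁻¹
  rw [B_apply] at h1
  have e : (a : Ω) * ((a⁻¹ : IntermediateField.fixedField P) : Ω) = 1 := by
    have : a * a⁻¹ = 1 := mul_inv_cancel₀ ha
    exact_mod_cast congrArg (fun x : IntermediateField.fixedField P => (x : Ω)) this
  rw [e] at h1
  exact T_one P h1

lemma exists_basis : ∃ v : Fin P.index → Ω, (∀ r, ∀ γ ∈ P, γ (v r) = v r) ∧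
    (∀ r s, r ≠ s → T P (v r * v s) = 0) ∧ (∀ r, T P (v r * v r) ≠ 0) ∧
    ∀ z : Ω, (∀ γ ∈ P, γ z = z) →
      z = ∑ r, algebraMap F Ω (T P (z * v r) / T P (v r * v r)) * v r := by
  haveI : Invertible (2 : F) := invertibleOfNonzero two_ne_zero
  obtain ⟨b0, hb0⟩ := LinearMap.BilinForm.exists_orthogonal_basis (B_symm P)
  set b := b0.reindex (finCongr (fdim P)) with hb
  have horth : ∀ r s, r ≠ s → B P (b r) (b s) = 0 := by
    intro r s hrs
    rw [hb, Module.Basis.reindex_apply, Module.Basis.reindex_apply]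
    apply hb0
    intro h
    exact hrs ((finCongr (fdim P)).symm.injective h)
  have hne : ∀ r, B P (b r) (b r) ≠ 0 := by
    intro r h
    have : b r = 0 := by
      apply B_nondeg P
      intro c
      rw [← b.sum_repr c, map_sum]
      apply Finset.sum_eq_zero
      intro s _
      rw [map_smul]
      by_cases hrs : r = s
      · subst hrs; rw [h, smul_zero]
      · rw [horth r s hrs, smul_zero]
    exact b.ne_zero r this
  have hmem : ∀ z : Ω, (∀ γ ∈ P, γ z = z) ↔ z ∈ IntermediateField.fixedField P := by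
    intro z
    rw [IntermediateField.mem_fixedField_iff]
  refine ⟨fun r => (b r : Ω), fun r => (hmem _).2 (b r).2, fun r s hrs => horth r s hrs,
    fun r => hne r, fun z hz => ?_⟩
  set z' : IntermediateField.fixedField P := ⟨z, (hmem z).1 hz⟩ with hz'
  have hrep : ∀ r, b.repr z' r = B P z' (b r) / B P (b r) (b r) := by
    intro r
    rw [eq_div_iff (hne r)]
    conv_rhs => rw [← b.sum_repr z']
    rw [map_sum, LinearMap.sum_apply, Finset.sum_eq_single r]
    · rw [map_smul, LinearMap.smul_apply, smul_eq_mul]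
    · intro s _ hs
      rw [map_smul, LinearMap.smul_apply, horth s r hs, smul_zero]
    · intro h; exact absurd (Finset.mem_univ r) h
  have h1 := b.sum_repr z'
  have h2 : (z : Ω) = ∑ r, ((b.repr z' r • b r : IntermediateField.fixedField P) : Ω) := by
    conv_lhs => rw [show z = (z' : Ω) from rfl, ← h1]
    push_cast
    rfl
  conv_lhs => rw [h2]
  refine Finset.sum_congr rfl fun r _ => ?_
  have e : ((b.repr z' r • b r : IntermediateField.fixedField P) : Ω)
      = b.repr z' r • (b r : Ω) := rfl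
  rw [e, hrep, Algebra.smul_def]
  rfl

end gen

end Pool.Agent.K3h37.Ort
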